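import Pool.Agent.W488.KS.Stm

set_option autoImplicit false

namespace Pool.Agent.W456.KS

section Abs

variable {C : Type} [Ring C] [Algebra ℚ C] {N : ℕ} (x : Fin N → C)

/-- the monomial of a word -/
def mo (L : List (Fin N)) : C := (L.map x).prod

@[simp] theorem mo_nil : mo x [] = 1 := rfl

@[simp] theorem mo_cons (a : Fin N) (L : List (Fin N)) : mo x (a :: L) = x a * mo x L := by
  simp [mo]

theorem mo_append (L L' : List (Fin N)) : mo x (L ++ L') = mo x L * mo x L' := by
  simp [mo]

variable (q : Fin N → ℚ) (hq : ∀ i, q i ≠ 0) (hx : ∀ i, x i * x i = algebraMap ℚ C (q i))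
  (hxy : ∀ i j, i ≠ j → x i * x j = -(x j * x i))

include hxy in
theorem comm1 (i : Fin N) (L : List (Fin N)) :
    x i * mo x L = ((-1 : ℚ) ^ (L.length + L.count i)) • (mo x L * x i) := by
  induction L with
  | nil => simp
  | cons a L ih =>
    rw [mo_cons, List.length_cons]
    by_cases h : a = i
    · subst h
      rw [List.count_cons_self]
      have e2 : (-1 : ℚ) ^ (L.length + 1 + (List.count a L + 1)) =
          (-1) ^ (L.length + List.count a L) := by
        rw [show L.length + 1 + (List.count a L + 1) = (L.length + List.count a L) + 2 by ring,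
          pow_add _ _ 2]
        norm_num
      rw [e2]
      conv_lhs => rw [ih, mul_smul_comm, ← mul_assoc]
    · rw [List.count_cons_of_ne h, ← mul_assoc, hxy i a (Ne.symm h), neg_mul, mul_assoc, ih,
        mul_smul_comm, ← mul_assoc, ← neg_smul]
      congr 1
      ring

include hxy in
theorem comm2 (i j : Fin N) (L : List (Fin N)) :
    x i * x j * mo x L = ((-1 : ℚ) ^ (L.count i + L.count j)) • (mo x L * (x i * x j)) := by
  rw [mul_assoc, comm1 x hxy j, mul_smul_comm, ← mul_assoc, comm1 x hxy i, smul_mul_assoc,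
    smul_smul, mul_assoc]
  congr 1
  rw [← pow_add]
  have : L.length + L.count j + (L.length + L.count i) =
      2 * L.length + (L.count i + L.count j) := by ring
  rw [this, pow_add, pow_mul]
  norm_num

include hx hxy in
theorem scal (n : ℕ) : ∀ L : List (Fin N), L.length ≤ n → (∀ i, Even (L.count i)) →
    ∃ c : ℚ, mo x L = algebraMap ℚ C c := by
  induction n with
  | zero =>
    intro L hL _
    have : L = [] := List.length_eq_zero_iff.1 (by omega)
    subst this
    exact ⟨1, by simp⟩
  | succ n ih =>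
    intro L hL hev
    match L with
    | [] => exact ⟨1, by simp⟩
    | a :: L' =>
      have h1 : a ∈ L' := by
        by_contra h
        have h2 := hev a
        rw [List.count_cons_self, List.count_eq_zero_of_not_mem h] at h2
        exact absurd h2 (by decide)
      obtain ⟨L1, L2, rfl, hL1⟩ := List.eq_append_cons_of_mem h1
      obtain ⟨c, hc⟩ := ih (L1 ++ L2) (by simp at hL ⊢; omega) (by
        intro i
        have h2 := hev i
        rw [List.count_cons, List.count_append, List.count_cons] at h2
        rw [List.count_append]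
        by_cases hi : a = i
        · subst hi
          simp only [beq_self_eq_true, if_true] at h2
          have : L1.count a + (L2.count a + 1) + 1 = (L1.count a + L2.count a) + 2 := by ring
          rw [this, Nat.even_add] at h2
          exact h2.2 (by decide)
        · have h3 : (a == i) = false := by simpa using hi
          simp only [h3] at h2
          simpa using h2)
      refine ⟨(-1) ^ L1.length * q a * c, ?_⟩
      rw [mo_cons, mo_append, mo_cons, ← mul_assoc, comm1 x hxy a L1,
        List.count_eq_zero_of_not_mem hL1, smul_mul_assoc, mul_assoc, ← mul_assoc (x a) (x a),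
        hx a, ← mul_assoc, ← Algebra.commutes, mul_assoc, ← mo_append, hc, Algebra.smul_def,
        ← map_mul, ← map_mul]
      congr 1
      ring

include hq hx in
theorem rev1 (L : List (Fin N)) : ∃ t : ℚ, t ≠ 0 ∧ mo x L * mo x L.reverse = algebraMap ℚ C t := by
  induction L with
  | nil => exact ⟨1, one_ne_zero, by simp⟩
  | cons a L ih =>
    obtain ⟨t, ht, h⟩ := ih
    refine ⟨t * q a, mul_ne_zero ht (hq a), ?_⟩
    rw [List.reverse_cons, mo_append, mo_cons, mul_assoc, ← mul_assoc (mo x L), h, mo_cons, mo_nil,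
      mul_one, Algebra.commutes, ← mul_assoc, hx a, ← map_mul]
    congr 1
    ring

include hq hx in
theorem rev2 (L : List (Fin N)) : ∃ t : ℚ, t ≠ 0 ∧ mo x L.reverse * mo x L = algebraMap ℚ C t := by
  have h := rev1 x q hq hx L.reverse
  rwa [List.reverse_reverse] at h

/-- the parity vector of a word -/
def par (L : List (Fin N)) : Fin N → ZMod 2 := fun i => (L.count i : ZMod 2)

include hq hx hxy in
theorem prop (L L' : List (Fin N)) (h : par L = par L') : ∃ c : ℚ, mo x L = c • mo x L' := by
  obtain ⟨s, hs⟩ := scal x q hx hxy _ (L ++ L'.reverse) le_rfl (by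
    intro i
    have h1 := congrFun h i
    simp only [par] at h1
    rw [List.count_append, List.count_reverse]
    have h2 : ((L.count i + L'.count i : ℕ) : ZMod 2) = 0 := by
      push_cast
      rw [h1]
      exact CharTwo.add_self_eq_zero _
    exact (ZMod.natCast_eq_zero_iff_even).1 h2)
  obtain ⟨t, ht, h2⟩ := rev2 x q hq hx L'
  refine ⟨s / t, ?_⟩
  have h3 : t • mo x L = s • mo x L' := by
    calc t • mo x L = mo x L * algebraMap ℚ C t := by rw [← Algebra.commutes, Algebra.smul_def]
      _ = mo x L * (mo x L'.reverse * mo x L') := by rw [h2]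
      _ = mo x (L ++ L'.reverse) * mo x L' := by rw [mo_append, mul_assoc]
      _ = s • mo x L' := by rw [hs, Algebra.smul_def]
  calc mo x L = t⁻¹ • (t • mo x L) := by rw [smul_smul, inv_mul_cancel₀ ht, one_smul]
    _ = (s / t) • mo x L' := by rw [h3, smul_smul]; congr 1; ring

/-- the homogeneous components -/
def H (p : Fin N → ZMod 2) : Submodule ℚ C :=
  Submodule.span ℚ {y | ∃ L : List (Fin N), Even L.length ∧ par L = p ∧ y = mo x L}

include hq hx hxy in
theorem H_form (p : Fin N → ZMod 2) (y : C) (hy : y ∈ H x p) (h0 : y ≠ 0) :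
    ∃ (L : List (Fin N)) (c : ℚ), Even L.length ∧ par L = p ∧ c ≠ 0 ∧ y = c • mo x L := by
  by_cases hne : ∃ L : List (Fin N), Even L.length ∧ par L = p
  · obtain ⟨L0, hL0, hp0⟩ := hne
    have h1 : ∃ c : ℚ, y = c • mo x L0 := by
      refine Submodule.span_induction (p := fun y _ => ∃ c : ℚ, y = c • mo x L0) ?_ ?_ ?_ ?_ hy
      · rintro _ ⟨L, _, hp, rfl⟩
        exact prop x q hq hx hxy L L0 (hp.trans hp0.symm)
      · exact ⟨0, by simp⟩
      · rintro a b _ _ ⟨c, rfl⟩ ⟨d, rfl⟩
        exact ⟨c + d, by rw [add_smul]⟩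
      · rintro r a _ ⟨c, rfl⟩
        exact ⟨r * c, by rw [smul_smul]⟩
    obtain ⟨c, hc⟩ := h1
    refine ⟨L0, c, hL0, hp0, ?_, hc⟩
    rintro rfl
    exact h0 (by rw [hc, zero_smul])
  · exfalso
    apply h0
    have h1 : {y | ∃ L : List (Fin N), Even L.length ∧ par L = p ∧ y = mo x L} = ∅ := by
      ext z
      simp only [Set.mem_setOf_eq, Set.mem_empty_iff_false, iff_false]
      rintro ⟨L, h2, h3, _⟩
      exact hne ⟨L, h2, h3⟩
    rw [H, h1, Submodule.span_empty, Submodule.mem_bot] at hy
    exact hy

/-- the sign -/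
def sg (a : ZMod 2) : ℚ := if a = 0 then 1 else -1

theorem sg_cast (k : ℕ) : (-1 : ℚ) ^ k = sg (k : ZMod 2) := by
  unfold sg
  rcases Nat.even_or_odd k with h | h
  · rw [if_pos ((ZMod.natCast_eq_zero_iff_even).2 h), h.neg_one_pow]
  · rw [if_neg (fun h2 => (Nat.not_even_iff_odd.2 h) ((ZMod.natCast_eq_zero_iff_even).1 h2)),
      h.neg_one_pow]

include hx hxy in
theorem H_conj (p : Fin N → ZMod 2) (i j : Fin N) (y : C) (hy : y ∈ H x p) :
    x i * x j * y * (x j * x i) = (sg (p i + p j) * (q i * q j)) • y := by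
  refine Submodule.span_induction
    (p := fun y _ => x i * x j * y * (x j * x i) = (sg (p i + p j) * (q i * q j)) • y)
    ?_ ?_ ?_ ?_ hy
  · rintro _ ⟨L, _, rfl, rfl⟩
    have h1 : x i * x j * (x j * x i) = algebraMap ℚ C (q i * q j) := by
      rw [mul_assoc, ← mul_assoc (x j), hx j, Algebra.commutes, ← mul_assoc, hx i, ← map_mul]
    rw [comm2 x hxy, smul_mul_assoc, mul_assoc, h1, sg_cast]
    simp only [par]
    rw [← Algebra.commutes, ← Algebra.smul_def, smul_smul]
    push_cast
    rfl
  · simp
  · intro a b _ _ ha hb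
    rw [mul_add, add_mul, ha, hb, smul_add]
  · intro r a _ ha
    rw [mul_smul_comm, smul_mul_assoc, ha, smul_comm]

theorem sum_par (L : List (Fin N)) (h : Even L.length) : ∑ i, par L i = 0 := by
  have h1 : ∑ i, L.count i = L.length := by
    clear h
    induction L with
    | nil => simp
    | cons a L ih =>
      simp only [List.count_cons, Finset.sum_add_distrib, ih, List.length_cons]
      congr 1
      simp
  simp only [par]
  rw [← Nat.cast_sum, h1]
  exact (ZMod.natCast_eq_zero_iff_even).2 h

theorem sg_ne (a b c : ZMod 2) (h : a ≠ b) : sg (a + c) ≠ sg (b + c) := by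
  have h1 : ∀ a b c : ZMod 2, a ≠ b → ¬ (a + c = 0 ↔ b + c = 0) := by decide
  have h2 := h1 a b c h
  unfold sg
  by_cases h3 : a + c = 0 <;> by_cases h4 : b + c = 0 <;> simp [h3, h4] at h2 ⊢ <;> norm_num

theorem split (hN : Odd N) (p p' : Fin N → ZMod 2) (hp : ∑ i, p i = 0) (hp' : ∑ i, p' i = 0)
    (hne : p ≠ p') : ∃ i j, sg (p i + p j) ≠ sg (p' i + p' j) := by
  obtain ⟨i, hi⟩ := Function.ne_iff.1 hne
  have hj : ∃ j, p j = p' j := by
    by_contra hall
    push Not at hall
    have h1 : ∀ a b : ZMod 2, a ≠ b → a = b + 1 := by decide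
    have h2 : ∑ i, p i = ∑ i, (p' i + 1) := Finset.sum_congr rfl fun i _ => h1 _ _ (hall i)
    rw [Finset.sum_add_distrib, hp, hp', zero_add, Finset.sum_const, Finset.card_univ,
      Fintype.card_fin, nsmul_eq_mul, mul_one] at h2
    exact (Nat.not_even_iff_odd.2 hN) ((ZMod.natCast_eq_zero_iff_even).1 h2.symm)
  obtain ⟨j, hj⟩ := hj
  refine ⟨i, j, ?_⟩
  rw [hj]
  exact sg_ne _ _ _ hi

theorem sg_cases (a : ZMod 2) : sg a = 1 ∨ sg a = -1 := by
  unfold sg
  by_cases h : a = 0 <;> simp [h]

include hq hx hxy in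
theorem main_ind (hN : Odd N) (J : C → Prop) (hadd : ∀ a b, J a → J b → J (a + b))
    (hsmul : ∀ (r : ℚ) a, J a → J (r • a))
    (hconj : ∀ i j a, J a → J (x i * x j * a * (x j * x i))) :
    ∀ F : Finset (Fin N → ZMod 2), ∀ f : (Fin N → ZMod 2) → C, (∀ p ∈ F, f p ∈ H x p) →
      J (∑ p ∈ F, f p) → ∑ p ∈ F, f p ≠ 0 → ∃ L : List (Fin N), Even L.length ∧ J (mo x L) := by
  classical
  intro F
  induction F using Finset.strongInduction with
  | H F ih =>
    intro f hf hJ h0
    by_cases hz : ∃ p ∈ F, f p = 0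
    · obtain ⟨p, hp, hp0⟩ := hz
      have e : ∑ r ∈ F.erase p, f r = ∑ r ∈ F, f r := Finset.sum_erase _ hp0
      refine ih (F.erase p) (Finset.erase_ssubset hp) f
        (fun r hr => hf r (Finset.mem_of_mem_erase hr)) ?_ ?_
      · rw [e]; exact hJ
      · rw [e]; exact h0
    · push Not at hz
      by_cases h2 : ∃ p ∈ F, ∃ p' ∈ F, p ≠ p'
      · obtain ⟨p, hp, p', hp', hne⟩ := h2
        obtain ⟨L1, _, hL1, hpar1, _, _⟩ := H_form x q hq hx hxy p (f p) (hf p hp) (hz p hp)
        obtain ⟨L2, _, hL2, hpar2, _, _⟩ := H_form x q hq hx hxy p' (f p') (hf p' hp') (hz p' hp')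
        obtain ⟨i, j, hij⟩ := split hN p p' (by rw [← hpar1]; exact sum_par L1 hL1)
          (by rw [← hpar2]; exact sum_par L2 hL2) hne
        set z := ∑ r ∈ F, f r with hzdef
        set z1 := ∑ r ∈ F.filter (fun r => sg (r i + r j) = 1), f r with hz1
        set z2 := ∑ r ∈ F.filter (fun r => ¬ sg (r i + r j) = 1), f r with hz2
        have hsum : z1 + z2 = z := Finset.sum_filter_add_sum_filter_not F _ f
        have hc : x i * x j * z * (x j * x i) = (q i * q j) • (z1 - z2) := by
          have e1 : x i * x j * z * (x j * x i) =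
              ∑ r ∈ F, (sg (r i + r j) * (q i * q j)) • f r := by
            rw [hzdef, Finset.mul_sum, Finset.sum_mul]
            exact Finset.sum_congr rfl fun r hr => H_conj x q hx hxy r i j (f r) (hf r hr)
          rw [e1, ← Finset.sum_filter_add_sum_filter_not F (fun r => sg (r i + r j) = 1)]
          have e2 : ∑ r ∈ F.filter (fun r => sg (r i + r j) = 1),
              (sg (r i + r j) * (q i * q j)) • f r = (q i * q j) • z1 := by
            rw [hz1, Finset.smul_sum]
            refine Finset.sum_congr rfl fun r hr => ?_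
            rw [(Finset.mem_filter.1 hr).2, one_mul]
          have e3 : ∑ r ∈ F.filter (fun r => ¬ sg (r i + r j) = 1),
              (sg (r i + r j) * (q i * q j)) • f r = -((q i * q j) • z2) := by
            rw [hz2, Finset.smul_sum, ← Finset.sum_neg_distrib]
            refine Finset.sum_congr rfl fun r hr => ?_
            rcases sg_cases (r i + r j) with h | h
            · exact absurd h (Finset.mem_filter.1 hr).2
            · rw [h, ← neg_smul]
              congr 1
              ring
          rw [e2, e3, smul_sub, sub_eq_add_neg]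
        have hqq : q i * q j ≠ 0 := mul_ne_zero (hq i) (hq j)
        have hd : J (z1 - z2) := by
          have h5 := hsmul (q i * q j)⁻¹ _ (hconj i j z hJ)
          rwa [hc, smul_smul, inv_mul_cancel₀ hqq, one_smul] at h5
        have hJ1 : J z1 := by
          have h5 := hsmul (1 / 2) _ (hadd _ _ hJ hd)
          have e : (1 / 2 : ℚ) • (z + (z1 - z2)) = z1 := by
            rw [← hsum]
            have : z1 + z2 + (z1 - z2) = (2 : ℚ) • z1 := by rw [two_smul]; abel
            rw [this, smul_smul]
            norm_num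
          rwa [e] at h5
        have hJ2 : J z2 := by
          have h5 := hsmul (1 / 2) _ (hadd _ _ hJ (hsmul (-1) _ hd))
          have e : (1 / 2 : ℚ) • (z + (-1 : ℚ) • (z1 - z2)) = z2 := by
            rw [← hsum]
            have : z1 + z2 + (-1 : ℚ) • (z1 - z2) = (2 : ℚ) • z2 := by
              rw [two_smul, neg_one_smul]; abel
            rw [this, smul_smul]
            norm_num
          rwa [e] at h5
        have hone : (sg (p i + p j) = 1 ∧ ¬ sg (p' i + p' j) = 1) ∨
            (¬ sg (p i + p j) = 1 ∧ sg (p' i + p' j) = 1) := by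
          rcases sg_cases (p i + p j) with h | h <;> rcases sg_cases (p' i + p' j) with h' | h'
          · exact absurd (h.trans h'.symm) hij
          · left; exact ⟨h, by rw [h']; norm_num⟩
          · right; exact ⟨by rw [h]; norm_num, h'⟩
          · exact absurd (h.trans h'.symm) hij
        have hs1 : F.filter (fun r => sg (r i + r j) = 1) ⊂ F := by
          rw [Finset.filter_ssubset]
          rcases hone with h | h
          · exact ⟨p', hp', h.2⟩
          · exact ⟨p, hp, h.1⟩
        have hs2 : F.filter (fun r => ¬ sg (r i + r j) = 1) ⊂ F := by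
          rw [Finset.filter_ssubset]
          rcases hone with h | h
          · exact ⟨p, hp, fun h' => h' h.1⟩
          · exact ⟨p', hp', fun h' => h' h.2⟩
        by_cases h1 : z1 = 0
        · have h3 : z2 ≠ 0 := by
            intro h3
            apply h0
            rw [← hsum, h1, h3, add_zero]
          exact ih _ hs2 f (fun r hr => hf r (Finset.mem_filter.1 hr).1) hJ2 h3
        · exact ih _ hs1 f (fun r hr => hf r (Finset.mem_filter.1 hr).1) hJ1 h1
      · push Not at h2
        have hne : F.Nonempty := by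
          by_contra h
          rw [Finset.not_nonempty_iff_eq_empty] at h
          apply h0
          rw [h, Finset.sum_empty]
        obtain ⟨p, hp⟩ := hne
        have e : F = {p} := by
          rw [Finset.eq_singleton_iff_unique_mem]
          exact ⟨hp, fun r hr => h2 r hr p hp⟩
        rw [e, Finset.sum_singleton] at hJ
        obtain ⟨L, c, hL, _, hc, hy⟩ := H_form x q hq hx hxy p (f p) (hf p hp) (hz p hp)
        refine ⟨L, hL, ?_⟩
        have h5 := hsmul c⁻¹ _ hJ
        rwa [hy, smul_smul, inv_mul_cancel₀ hc, one_smul] at h5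

theorem decomp (a : C)
    (ha : a ∈ Submodule.span ℚ {y | ∃ L : List (Fin N), Even L.length ∧ y = mo x L}) :
    ∃ f : (Fin N → ZMod 2) → C, (∀ p, f p ∈ H x p) ∧ a = ∑ p, f p := by
  classical
  refine Submodule.span_induction
    (p := fun a _ => ∃ f : (Fin N → ZMod 2) → C, (∀ p, f p ∈ H x p) ∧ a = ∑ p, f p)
    ?_ ?_ ?_ ?_ ha
  · rintro _ ⟨L, hL, rfl⟩
    refine ⟨fun p => if p = par L then mo x L else 0, fun p => ?_, ?_⟩
    · by_cases h : p = par L
      · simp only [h, if_true]
        exact Submodule.subset_span ⟨L, hL, rfl, rfl⟩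
      · simp only [h, if_false]
        exact Submodule.zero_mem _
    · simp
  · exact ⟨fun _ => 0, fun _ => Submodule.zero_mem _, by simp⟩
  · rintro a b _ _ ⟨f, hf, rfl⟩ ⟨g, hg, rfl⟩
    exact ⟨fun p => f p + g p, fun p => Submodule.add_mem _ (hf p) (hg p),
      Finset.sum_add_distrib.symm⟩
  · rintro r a _ ⟨f, hf, rfl⟩
    exact ⟨fun p => r • f p, fun p => Submodule.smul_mem _ _ (hf p), Finset.smul_sum⟩

include hq hx hxy in
theorem simple_abs [Nontrivial C] (hN : Odd N) (A : Subalgebra ℚ C)
    (hA : ∀ L : List (Fin N), Even L.length → mo x L ∈ A)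
    (hA' : ∀ a ∈ A, a ∈ Submodule.span ℚ {y | ∃ L : List (Fin N), Even L.length ∧ y = mo x L}) :
    IsSimpleRing A := by
  apply IsSimpleRing.of_eq_bot_or_eq_top
  intro I
  by_cases hI : I = ⊥
  · exact Or.inl hI
  right
  have hne : ∃ z ∈ I, z ≠ 0 := by
    by_contra h
    push Not at h
    apply hI
    rw [eq_bot_iff]
    intro z hz
    rw [TwoSidedIdeal.mem_bot]
    exact h z hz
  obtain ⟨z, hz, hz0⟩ := hne
  obtain ⟨f, hf, hzf⟩ := decomp x z.1 (hA' z.1 z.2)
  have hX : ∀ i j : Fin N, x i * x j ∈ A := by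
    intro i j
    have := hA [i, j] (by simp)
    simpa [mo] using this
  let J : C → Prop := fun c => ∃ h : c ∈ A, (⟨c, h⟩ : A) ∈ I
  obtain ⟨L, hL, hLA, hLI⟩ := main_ind x q hq hx hxy hN J
    (by
      rintro a b ⟨ha, ha'⟩ ⟨hb, hb'⟩
      exact ⟨A.add_mem ha hb, I.add_mem ha' hb'⟩)
    (by
      rintro r a ⟨ha, ha'⟩
      refine ⟨A.smul_mem ha r, ?_⟩
      have h1 := I.mul_mem_left (algebraMap ℚ A r) _ ha'
      convert h1 using 1
      apply Subtype.ext
      show r • a = algebraMap ℚ C r * a
      rw [Algebra.smul_def])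
    (by
      rintro i j a ⟨ha, ha'⟩
      exact ⟨A.mul_mem (A.mul_mem (hX i j) ha) (hX j i),
        I.mul_mem_right _ ⟨x j * x i, hX j i⟩ (I.mul_mem_left ⟨x i * x j, hX i j⟩ _ ha')⟩)
    Finset.univ f (fun p _ => hf p)
    (by
      rw [← hzf]
      exact ⟨z.2, hz⟩)
    (by
      rw [← hzf]
      intro h
      exact hz0 (Subtype.ext h))
  obtain ⟨t, ht, h2⟩ := rev1 x q hq hx L
  have h3 := I.mul_mem_right _ ⟨mo x L.reverse, hA _ (by simpa using hL)⟩ hLI
  have h4 := I.mul_mem_left (algebraMap ℚ A t⁻¹) _ h3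
  rw [← I.one_mem_iff]
  convert h4 using 1
  apply Subtype.ext
  show (1 : C) = algebraMap ℚ C t⁻¹ * (mo x L * mo x L.reverse)
  rw [h2, ← map_mul, inv_mul_cancel₀ ht, map_one]

end Abs

section Cl

open CliffordAlgebra

variable {M : Type} [AddCommGroup M] [Module ℚ M] (F : QuadraticForm ℚ M) {N : ℕ}
  (v : Module.Basis (Fin N) ℚ M)

/-- the vectors in the Clifford algebra -/
noncomputable def xx (i : Fin N) : CliffordAlgebra F := ι F (v i)

/-- the span of the monomials with a property -/
noncomputable def sp (P : List (Fin N) → Prop) : Submodule ℚ (CliffordAlgebra F) :=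
  Submodule.span ℚ {y | ∃ L : List (Fin N), P L ∧ y = mo (xx F v) L}

theorem mul_sp (P P' : List (Fin N) → Prop) (hP : ∀ b L, P L → P' (b :: L)) (m : M)
    (y : CliffordAlgebra F) (hy : y ∈ sp F v P) : ι F m * y ∈ sp F v P' := by
  have hm : ι F m = ∑ i, v.repr m i • xx F v i := by
    conv_lhs => rw [← v.sum_repr m, map_sum]
    simp only [map_smul]
    rfl
  rw [hm, Finset.sum_mul]
  refine Submodule.sum_mem _ fun i _ => ?_
  rw [smul_mul_assoc]
  refine Submodule.smul_mem _ _ ?_
  refine Submodule.span_induction (p := fun y _ => xx F v i * y ∈ sp F v P') ?_ ?_ ?_ ?_ hy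
  · rintro _ ⟨L, hL, rfl⟩
    rw [← mo_cons]
    exact Submodule.subset_span ⟨i :: L, hP i L hL, rfl⟩
  · rw [mul_zero]
    exact Submodule.zero_mem _
  · intro a b _ _ h1 h2
    rw [mul_add]
    exact Submodule.add_mem _ h1 h2
  · intro r a _ h1
    rw [mul_smul_comm]
    exact Submodule.smul_mem _ _ h1

theorem even_sp (a : CliffordAlgebra F) (ha : a ∈ evenOdd F 0) :
    a ∈ sp F v (fun L => Even L.length) := by
  refine CliffordAlgebra.even_induction F
    (motive := fun a _ => a ∈ sp F v (fun L => Even L.length)) ?_ ?_ ?_ a ha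
  · intro r
    rw [Algebra.algebraMap_eq_smul_one]
    exact Submodule.smul_mem _ _ (Submodule.subset_span ⟨[], by simp, rfl⟩)
  · intro a b _ _ h1 h2
    exact Submodule.add_mem _ h1 h2
  · intro m₁ m₂ y _ hy
    rw [mul_assoc]
    have k1 := mul_sp F v (fun L => Even L.length) (fun L => Odd L.length)
      (fun b L (h : Even L.length) => by
        show Odd (L.length + 1)
        exact h.add_one) m₂ y hy
    exact mul_sp F v (fun L => Odd L.length) (fun L => Even L.length)
      (fun b L (h : Odd L.length) => by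
        show Even (L.length + 1)
        exact h.add_one) m₁ _ k1

theorem mo_mem (L : List (Fin N)) : mo (xx F v) L ∈ evenOdd F (L.length : ZMod 2) := by
  induction L with
  | nil => simpa using SetLike.GradedOne.one_mem (A := evenOdd F)
  | cons a L ih =>
    rw [mo_cons, List.length_cons, Nat.cast_add, Nat.cast_one, add_comm]
    exact SetLike.mul_mem_graded (ι_mem_evenOdd_one _ _) ih

theorem simple_cl (hN : Odd N) (hne : ∀ i, F (v i) ≠ 0)
    (hor : ∀ i j, i ≠ j → QuadraticMap.polar F (v i) (v j) = 0) :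
    IsSimpleRing (CliffordAlgebra.even F) := by
  haveI : Invertible (2 : ℚ) := invertibleOfNonzero two_ne_zero
  refine simple_abs (xx F v) (fun i => F (v i)) hne ?_ ?_ hN (CliffordAlgebra.even F) ?_ ?_
  · intro i
    exact ι_sq_scalar _ _
  · intro i j hij
    have h1 := ι_mul_ι_add_swap (Q := F) (v i) (v j)
    rw [hor i j hij, map_zero] at h1
    exact eq_neg_of_add_eq_zero_left h1
  · intro L hL
    have h2 := mo_mem F v L
    rw [(ZMod.natCast_eq_zero_iff_even).2 hL] at h2
    exact h2
  · intro a ha
    exact even_sp F v a ha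

end Cl

open Pool.Agent.W488.KS in
theorem sim : S_sim := by
  intro n Q hQ hdet hn
  have hsymm : LinearMap.IsSymm (Matrix.toBilin' Q) := by
    constructor
    intro a b
    simp only [Matrix.toBilin'_apply', RingHom.id_apply]
    rw [Matrix.dotProduct_mulVec, dotProduct_comm, ← Matrix.mulVec_transpose, hQ]
  have hnd : (Matrix.toBilin' Q).Nondegenerate :=
    LinearMap.BilinForm.nondegenerate_toBilin'_iff_det_ne_zero.2 hdet
  obtain ⟨v, hv⟩ := LinearMap.BilinForm.exists_orthogonal_basis hsymm
  have hfin : Module.finrank ℚ (Fin n → ℚ) = n := by simp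
  have hvne : ∀ i, Matrix.toBilin' Q (v i) (v i) ≠ 0 := fun i =>
    LinearMap.BilinForm.iIsOrtho.not_isOrtho_basis_self_of_nondegenerate hv hnd i
  refine simple_cl (qf Q) v (by rw [hfin]; exact hn) hvne ?_
  intro i j hij
  have h3 : Matrix.toBilin' Q (v i) (v j) = 0 := hv hij
  have h4 : Matrix.toBilin' Q (v j) (v i) = 0 := hv (Ne.symm hij)
  have h5 : QuadraticMap.polar (qf Q) (v i) (v j) =
      Matrix.toBilin' Q (v i) (v j) + Matrix.toBilin' Q (v j) (v i) :=
    LinearMap.BilinMap.polar_toQuadraticMap _ _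
  rw [h5, h3, h4, add_zero]

end Pool.Agent.W456.KS
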